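import Pool.Agent.Q269.DX.LD.Stm
import Pool.Agent.Q269.DX.A299.ORT

/-!
# LD-NF: few unlinked families are not full
-/

set_option autoImplicit false

namespace Pool.Agent.Q269.DX.A234

open Pool.Agent.Q269.DX.Bs (ze ze_add)

open Finset Module
open Pool.Agent.Q269.DX.JQ Pool.Agent.Q269.DX.LD
open scoped Classical

section one

variable {F : Type} [Fintype F] {V : F → Type} [∀ f, AddCommGroup (V f)]
  [∀ f, Module (ZMod 2) (V f)]

/-- the sum of the forms in a set -/
noncomputable def Om (ω : ∀ f, V f →ₗ[ZMod 2] V f →ₗ[ZMod 2] ZMod 2) (J : Finset F) :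
    (∀ f : J, V f) →ₗ[ZMod 2] (∀ f : J, V f) →ₗ[ZMod 2] ZMod 2 :=
  ∑ f : J, (ω f).compl₁₂ (LinearMap.proj f) (LinearMap.proj f)

theorem Om_apply (ω : ∀ f, V f →ₗ[ZMod 2] V f →ₗ[ZMod 2] ZMod 2) (J : Finset F)
    (x y : ∀ f : J, V f) : Om ω J x y = ∑ f : J, ω f (x f) (y f) := by
  simp [Om, LinearMap.sum_apply]

theorem Om_alt {ω : ∀ f, V f →ₗ[ZMod 2] V f →ₗ[ZMod 2] ZMod 2} (h : ∀ f x, ω f x x = 0)
    (J : Finset F) (x : ∀ f : J, V f) : Om ω J x x = 0 := by
  rw [Om_apply]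
  exact sum_eq_zero fun f _ => h _ _

theorem Om_nd {ω : ∀ f, V f →ₗ[ZMod 2] V f →ₗ[ZMod 2] ZMod 2}
    (h : ∀ f x, (∀ y, ω f x y = 0) → x = 0)
    (J : Finset F) (x : ∀ f : J, V f) (hx : ∀ y, Om ω J x y = 0) : x = 0 := by
  funext f
  refine h f (x f) fun y => ?_
  have h1 := hx (Pi.single f y)
  rw [Om_apply, Finset.sum_eq_single f] at h1
  · simpa using h1
  · intro g _ hg
    rw [Pi.single_eq_of_ne hg, map_zero]
  · intro h2
    exact absurd (mem_univ _) h2

variable {ι Cc : Type}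

/-- the value at `i` as an element of the space of the forms of the colour `c` -/
noncomputable def zz (B : F → ι → Prop) (J : Finset F)
    (Z : ∀ f, {i // B f i} → V f × V f) (i : ι) : (∀ f : J, V f) × (∀ f : J, V f) :=
  (fun f => (vl B Z i f).1, fun f => (vl B Z i f).2)

theorem lk_eq (ω : ∀ f, V f →ₗ[ZMod 2] V f →ₗ[ZMod 2] ZMod 2) (B : F → ι → Prop)
    (Z : ∀ f, {i // B f i} → V f × V f) (i j : ι) (J : Finset F)
    (hi : ∀ f, B f i ↔ f ∈ J) (hj : ∀ f, B f j ↔ f ∈ J) :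
    Om ω J (zz B J Z i + zz B J Z j).2 (zz B J Z i + zz B J Z j).1 = lk ω B Z i j := by
  rw [Om_apply, lk]
  have h1 : ∀ f ∈ (univ : Finset F), f ∉ J →
      (if h : B f i ∧ B f j then
        ω f (Z f ⟨i, h.1⟩ + Z f ⟨j, h.2⟩).2 (Z f ⟨i, h.1⟩ + Z f ⟨j, h.2⟩).1 else 0) = 0 := by
    intro f _ hf
    rw [dif_neg]
    intro h
    exact hf ((hi f).1 h.1)
  rw [← Finset.sum_subset (Finset.subset_univ J) h1, ← Finset.sum_coe_sort J]
  refine sum_congr rfl fun f _ => ?_
  have hf1 : B f i := (hi f).2 f.2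
  have hf2 : B f j := (hj f).2 f.2
  rw [dif_pos ⟨hf1, hf2⟩]
  simp only [zz, vl, dif_pos hf1, dif_pos hf2, Prod.snd_add, Prod.fst_add, Pi.add_apply]

end one

section two

variable {F ι Cc : Type} [Fintype F] [Fintype ι] {V : F → Type} [∀ f, AddCommGroup (V f)]
  [∀ f, Module (ZMod 2) (V f)] [∀ f, Finite (V f)]

/-- the number of the values at a colour -/
theorem card_val_le {ω : ∀ f, V f →ₗ[ZMod 2] V f →ₗ[ZMod 2] ZMod 2} (h0 : ∀ f x, ω f x x = 0)
    (h1 : ∀ f x, (∀ y, ω f x y = 0) → x = 0) (I : F → Finset Cc) (col : ι → Cc)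
    (B : F → ι → Prop) (hB : ∀ f i, B f i ↔ col i ∈ I f) (Z : ∀ f, {i // B f i} → V f × V f)
    (hZ : Unl ω B Z) (c : Cc) :
    ((univ.filter fun i => col i = c).image (vl B Z)).card ≤ vc V I c := by
  have hJ : ∀ i, col i = c → ∀ f, B f i ↔ f ∈ univ.filter fun f => c ∈ I f := by
    intro i hi f
    rw [hB, hi]
    simp
  set J : Finset F := univ.filter fun f => c ∈ I f with hJdef
  have hort := Pool.Agent.Q269.DX.A299.t_ORT (∀ f : J, V f) {i // col i = c} (Om ω J)
    (Om_alt h0 J) (Om_nd h1 J) (fun i => zz B J Z i) (by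
      intro i j
      rw [lk_eq ω B Z i j J (hJ i i.2) (hJ j j.2)]
      exact hZ i j)
  have hcard : Nat.card (∀ f : J, V f) = vc V I c := by
    rw [Nat.card_pi, vc, hJdef, Finset.prod_coe_sort (univ.filter fun f => c ∈ I f)
      (fun f => Nat.card (V f)), Finset.prod_filter]
  rw [← hcard]
  refine le_trans ?_ hort.2
  rcases (univ.filter fun i => col i = c).eq_empty_or_nonempty with hE | ⟨i₀, hi₀⟩
  · rw [hE]
    simp
  rw [mem_filter] at hi₀
  have hi₀ := hi₀.2
  have hval : ∀ v ∈ (univ.filter fun i => col i = c).image (vl B Z), ∃ i, col i = c ∧ vl B Z i = v := by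
    intro v hv
    rw [mem_image] at hv
    obtain ⟨i, hi, hiv⟩ := hv
    rw [mem_filter] at hi
    exact ⟨i, hi.2, hiv⟩
  choose g hg1 hg2 using hval
  have hm : ∀ (v : ∀ f, V f × V f) (hv : v ∈ (univ.filter fun i => col i = c).image (vl B Z)),
      zz B J Z (g v hv) + zz B J Z i₀ ∈ dif fun i : {i // col i = c} => zz B J Z i := by
    intro v hv
    exact Submodule.subset_span ⟨(⟨g v hv, hg1 v hv⟩, ⟨i₀, hi₀⟩), rfl⟩
  have hcc : ((univ.filter fun i => col i = c).image (vl B Z)).card =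
      Nat.card {v // v ∈ (univ.filter fun i => col i = c).image (vl B Z)} := by
    rw [Nat.card_eq_fintype_card, Fintype.card_coe]
  rw [hcc]
  refine Nat.card_le_card_of_injective
    (fun v : {v // v ∈ (univ.filter fun i => col i = c).image (vl B Z)} =>
      (⟨zz B J Z (g v.1 v.2) + zz B J Z i₀, hm v.1 v.2⟩ :
        dif fun i : {i // col i = c} => zz B J Z i)) ?_
  intro v w hvw
  have h2 : zz B J Z (g v.1 v.2) + zz B J Z i₀ = zz B J Z (g w.1 w.2) + zz B J Z i₀ :=
    congrArg Subtype.val hvw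
  have h3 := add_right_cancel h2
  apply Subtype.ext
  rw [← hg2 v.1 v.2, ← hg2 w.1 w.2]
  funext f
  by_cases hf : f ∈ J
  · have h4 := congrFun (congrArg Prod.fst h3) ⟨f, hf⟩
    have h5 := congrFun (congrArg Prod.snd h3) ⟨f, hf⟩
    exact Prod.ext h4 h5
  · have h4 : ¬ B f (g v.1 v.2) := fun h => hf ((hJ _ (hg1 v.1 v.2) f).1 h)
    have h5 : ¬ B f (g w.1 w.2) := fun h => hf ((hJ _ (hg1 w.1 w.2) f).1 h)
    rw [vl, vl, dif_neg h4, dif_neg h5]

theorem vl_inj (B : F → ι → Prop) (Z Z' : ∀ f, {i // B f i} → V f × V f)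
    (h : vl B Z = vl B Z') : Z = Z' := by
  funext f i
  have h1 := congrFun (congrFun h i.1) f
  rw [vl, vl, dif_pos i.2, dif_pos i.2] at h1
  exact h1

end two

theorem t_NF : S_NF := by
  intro F Cc _ _ V _ _ _ ω h0 h1 I
  have : ∀ f, Fintype (V f) := fun f => Fintype.ofFinite _
  refine ⟨(Fintype.card (Cc → Finset (∀ f, V f × V f)) : ℝ), Nat.cast_nonneg _, ?_⟩
  intro ι _ col B hB
  have hvc : ∀ c, 1 ≤ vc V I c := by
    intro c
    rw [vc]
    refine Nat.one_le_iff_ne_zero.2 (Finset.prod_ne_zero_iff.2 fun f _ => ?_)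
    split_ifs
    · exact Nat.card_pos.ne'
    · exact one_ne_zero
  have hprod : ∏ i, (vc V I (col i) : ℝ) = ∏ f, (Nat.card (V f) : ℝ) ^ Nat.card {i // B f i} := by
    have h2 : ∀ i, (vc V I (col i) : ℝ) = ∏ f, if B f i then (Nat.card (V f) : ℝ) else 1 := by
      intro i
      rw [vc]
      push_cast
      refine prod_congr rfl fun f _ => ?_
      by_cases hf : B f i
      · rw [if_pos hf, if_pos ((hB f i).1 hf)]
      · rw [if_neg hf, if_neg fun h => hf ((hB f i).2 h)]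
    rw [prod_congr rfl fun i _ => h2 i, Finset.prod_comm]
    refine prod_congr rfl fun f _ => ?_
    rw [← Finset.prod_filter, prod_const, Nat.card_eq_fintype_card (α := {i // B f i}),
      Fintype.card_subtype]
  -- the families with given sets of values
  have hT : ∀ T : Cc → Finset (∀ f, V f × V f),
      ((univ : Finset (∀ f, {i // B f i} → V f × V f)).filter fun Z =>
        ∀ i, vl B Z i ∈ T (col i)).card ≤ ∏ i, (T (col i)).card := by
    intro T
    rw [← Fintype.card_piFinset]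
    refine Finset.card_le_card_of_injOn (fun Z => vl B Z) ?_ ?_
    · intro Z hZ
      rw [mem_coe, mem_filter] at hZ
      rw [mem_coe, Fintype.mem_piFinset]
      exact hZ.2
    · intro Z _ Z' _ hZZ
      exact vl_inj B Z Z' hZZ
  have hT2 : ∀ (T : Cc → Finset (∀ f, V f × V f)) (c₀ : Cc), (∀ c, (T c).card ≤ vc V I c) →
      (T c₀).card < vc V I c₀ →
      (((univ : Finset (∀ f, {i // B f i} → V f × V f)).filter fun Z =>
        ∀ i, vl B Z i ∈ T (col i)).card : ℝ) ≤
      (∏ f, (Nat.card (V f) : ℝ) ^ Nat.card {i // B f i}) *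
        (1 - 1 / (vc V I c₀ : ℝ)) ^ (univ.filter fun i => col i = c₀).card := by
    intro T c₀ hle hlt
    have h2 : (((univ : Finset (∀ f, {i // B f i} → V f × V f)).filter fun Z =>
        ∀ i, vl B Z i ∈ T (col i)).card : ℝ) ≤ ((∏ i, (T (col i)).card : ℕ) : ℝ) := by
      exact_mod_cast hT T
    refine h2.trans ?_
    rw [← hprod]
    push_cast
    have h3 : (1 - 1 / (vc V I c₀ : ℝ)) ^ (univ.filter fun i => col i = c₀).card =
        ∏ i, if col i = c₀ then (1 - 1 / (vc V I c₀ : ℝ)) else 1 := by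
      rw [← Finset.prod_filter, prod_const]
    rw [h3, ← prod_mul_distrib]
    refine prod_le_prod (fun i _ => Nat.cast_nonneg _) fun i _ => ?_
    by_cases hi : col i = c₀
    · rw [if_pos hi, hi]
      have h4 : ((T c₀).card : ℝ) + 1 ≤ (vc V I c₀ : ℝ) := by exact_mod_cast hlt
      have h5 : (0 : ℝ) < (vc V I c₀ : ℝ) := by exact_mod_cast hvc c₀
      have h6 : (vc V I c₀ : ℝ) * (1 - 1 / (vc V I c₀ : ℝ)) = (vc V I c₀ : ℝ) - 1 := by
        field_simp
      rw [h6]
      linarith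
    · rw [if_neg hi, mul_one]
      exact_mod_cast hle (col i)
  have hnn : ∀ c, (0 : ℝ) ≤ 1 - 1 / (vc V I c : ℝ) := by
    intro c
    have h5 : (1 : ℝ) ≤ (vc V I c : ℝ) := by exact_mod_cast hvc c
    have h6 : 1 / (vc V I c : ℝ) ≤ 1 := by
      rw [div_le_one (by linarith)]
      exact h5
    linarith
  have hPn : (0 : ℝ) ≤ ∏ f, (Nat.card (V f) : ℝ) ^ Nat.card {i // B f i} :=
    prod_nonneg fun f _ => pow_nonneg (Nat.cast_nonneg _) _
  rw [Nat.card_eq_fintype_card, Fintype.card_subtype]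
  have hsub : ((univ : Finset (∀ f, {i // B f i} → V f × V f)).filter fun Z =>
      Unl ω B Z ∧ ¬ Full I B col Z) ⊆
      ((univ : Finset ((Cc → Finset (∀ f, V f × V f)) × Cc)).filter fun p =>
        (∀ c, (p.1 c).card ≤ vc V I c) ∧ (p.1 p.2).card < vc V I p.2).biUnion fun p =>
        (univ : Finset (∀ f, {i // B f i} → V f × V f)).filter fun Z =>
          ∀ i, vl B Z i ∈ p.1 (col i) := by
    intro Z hZ
    rw [mem_filter] at hZ
    obtain ⟨-, hU, hF⟩ := hZ
    rw [Full, not_forall] at hF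
    obtain ⟨c₀, hc₀⟩ := hF
    rw [not_le] at hc₀
    rw [mem_biUnion]
    refine ⟨(fun c => (univ.filter fun i => col i = c).image (vl B Z), c₀), ?_, ?_⟩
    · rw [mem_filter]
      exact ⟨mem_univ _, fun c => card_val_le h0 h1 I col B hB Z hU c, hc₀⟩
    · rw [mem_filter]
      refine ⟨mem_univ _, fun i => ?_⟩
      exact mem_image_of_mem _ (mem_filter.2 ⟨mem_univ _, rfl⟩)
  have hc1 : (((univ : Finset (∀ f, {i // B f i} → V f × V f)).filter fun Z =>
      Unl ω B Z ∧ ¬ Full I B col Z).card : ℝ) ≤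
      ∑ p ∈ (univ : Finset ((Cc → Finset (∀ f, V f × V f)) × Cc)).filter fun p =>
        (∀ c, (p.1 c).card ≤ vc V I c) ∧ (p.1 p.2).card < vc V I p.2,
        (((univ : Finset (∀ f, {i // B f i} → V f × V f)).filter fun Z =>
          ∀ i, vl B Z i ∈ p.1 (col i)).card : ℝ) := by
    exact_mod_cast (card_le_card hsub).trans card_biUnion_le
  refine hc1.trans ?_
  have hc2 : ∑ p ∈ (univ : Finset ((Cc → Finset (∀ f, V f × V f)) × Cc)).filter fun p =>
        (∀ c, (p.1 c).card ≤ vc V I c) ∧ (p.1 p.2).card < vc V I p.2,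
        (((univ : Finset (∀ f, {i // B f i} → V f × V f)).filter fun Z =>
          ∀ i, vl B Z i ∈ p.1 (col i)).card : ℝ) ≤
      ∑ p ∈ (univ : Finset ((Cc → Finset (∀ f, V f × V f)) × Cc)).filter fun p =>
        (∀ c, (p.1 c).card ≤ vc V I c) ∧ (p.1 p.2).card < vc V I p.2,
        (∏ f, (Nat.card (V f) : ℝ) ^ Nat.card {i // B f i}) *
        (1 - 1 / (vc V I p.2 : ℝ)) ^ (univ.filter fun i => col i = p.2).card := by
    refine sum_le_sum fun p hp => ?_
    rw [mem_filter] at hp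
    exact hT2 p.1 p.2 hp.2.1 hp.2.2
  refine hc2.trans ?_
  have hc3 : ∑ p ∈ (univ : Finset ((Cc → Finset (∀ f, V f × V f)) × Cc)).filter fun p =>
        (∀ c, (p.1 c).card ≤ vc V I c) ∧ (p.1 p.2).card < vc V I p.2,
        (∏ f, (Nat.card (V f) : ℝ) ^ Nat.card {i // B f i}) *
        (1 - 1 / (vc V I p.2 : ℝ)) ^ (univ.filter fun i => col i = p.2).card ≤
      ∑ p : (Cc → Finset (∀ f, V f × V f)) × Cc,
        (∏ f, (Nat.card (V f) : ℝ) ^ Nat.card {i // B f i}) *
        (1 - 1 / (vc V I p.2 : ℝ)) ^ (univ.filter fun i => col i = p.2).card :=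
    sum_le_sum_of_subset_of_nonneg (filter_subset _ _) fun p _ _ =>
      mul_nonneg hPn (pow_nonneg (hnn _) _)
  refine hc3.trans (le_of_eq ?_)
  rw [Fintype.sum_prod_type]
  simp only [sum_const, nsmul_eq_mul, card_univ]
  rw [← mul_sum, mul_assoc]

end Pool.Agent.Q269.DX.A234
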